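import Pool.Agent.Lib_MP_b2bd43_an.Final

/-!
# A non-Hilbert real Banach space with numerical index zero and second numerical index one
-/

namespace Pool.Agent.Results.MP_b2bd43_an.NotHilbert

/-- The set `Π(X)` of pairs `(x, x*)` with `‖x‖ = 1`, `‖x*‖ = 1` and `x* x = 1`. -/
def PiSet (X : Type*) [NormedAddCommGroup X] [NormedSpace ℝ X] : Set (X × (X →L[ℝ] ℝ)) :=
  {q | ‖q.1‖ = 1 ∧ ‖q.2‖ = 1 ∧ q.2 q.1 = 1}

/-- The numerical radius `v(T)`. -/
noncomputable def numRadius {X : Type*} [NormedAddCommGroup X] [NormedSpace ℝ X]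
    (T : X →L[ℝ] X) : ℝ :=
  sSup {r | ∃ q ∈ PiSet X, r = |q.2 (T q.1)|}

/-- The numerical index `n(X)`. -/
noncomputable def numIndex (X : Type*) [NormedAddCommGroup X] [NormedSpace ℝ X] : ℝ :=
  sInf {r | ∃ T : X →L[ℝ] X, ‖T‖ = 1 ∧ r = numRadius T}

/-- The skew-hermitian operators `Z(X)`. -/
def skewHermitian (X : Type*) [NormedAddCommGroup X] [NormedSpace ℝ X] : Set (X →L[ℝ] X) :=
  {T | numRadius T = 0}

/-- The quotient norm `‖T + Z(X)‖`. -/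
noncomputable def quotNorm {X : Type*} [NormedAddCommGroup X] [NormedSpace ℝ X]
    (T : X →L[ℝ] X) : ℝ :=
  sInf {r | ∃ S ∈ skewHermitian X, r = ‖T + S‖}

/-- The second numerical index `n'(X)`. -/
noncomputable def secondNumIndex (X : Type*) [NormedAddCommGroup X] [NormedSpace ℝ X] : ℝ :=
  sInf {r | ∃ T : X →L[ℝ] X, quotNorm T = 1 ∧ r = numRadius T}

section basics

variable {X : Type*} [NormedAddCommGroup X] [NormedSpace ℝ X]

lemma bdd (T : X →L[ℝ] X) : BddAbove {r | ∃ q ∈ PiSet X, r = |q.2 (T q.1)|} := by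
  refine ⟨‖T‖, ?_⟩
  rintro r ⟨q, ⟨h1, h2, -⟩, rfl⟩
  calc |q.2 (T q.1)| = ‖q.2 (T q.1)‖ := (Real.norm_eq_abs _).symm
    _ ≤ ‖q.2‖ * ‖T q.1‖ := q.2.le_opNorm _
    _ ≤ ‖q.2‖ * (‖T‖ * ‖q.1‖) := mul_le_mul_of_nonneg_left (T.le_opNorm _) (norm_nonneg _)
    _ = ‖T‖ := by rw [h1, h2]; ring

lemma le_numRadius (T : X →L[ℝ] X) {q : X × (X →L[ℝ] ℝ)} (hq : q ∈ PiSet X) :
    |q.2 (T q.1)| ≤ numRadius T :=
  le_csSup (bdd T) ⟨q, hq, rfl⟩

lemma numRadius_nonneg (T : X →L[ℝ] X) : 0 ≤ numRadius T := by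
  refine Real.sSup_nonneg ?_
  rintro r ⟨q, -, rfl⟩
  exact abs_nonneg _

lemma numRadius_eq_zero {T : X →L[ℝ] X} (h : ∀ q ∈ PiSet X, q.2 (T q.1) = 0) :
    numRadius T = 0 := by
  refine le_antisymm (Real.sSup_le ?_ le_rfl) (numRadius_nonneg T)
  rintro r ⟨q, hq, rfl⟩
  rw [h q hq, abs_zero]

lemma bddBelow_quot (T : X →L[ℝ] X) : BddBelow {r | ∃ S ∈ skewHermitian X, r = ‖T + S‖} := by
  refine ⟨0, ?_⟩
  rintro r ⟨S, -, rfl⟩
  exact norm_nonneg _

lemma quotNorm_le (T : X →L[ℝ] X) {S : X →L[ℝ] X} (hS : S ∈ skewHermitian X) :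
    quotNorm T ≤ ‖T + S‖ :=
  csInf_le (bddBelow_quot T) ⟨S, hS, rfl⟩

end basics

open MPb2bd43

/-- Multiplications by `b i` are skew-hermitian. -/
lemma cm_skew (b : ℝ) : cm (b * Complex.I) ∈ skewHermitian MPb2bd43.X := by
  refine numRadius_eq_zero ?_
  rintro ⟨x, f⟩ ⟨h1, h2, h3⟩
  simp only at h1 h2 h3 ⊢
  set a : ℝ := f (Complex.I • x) with ha
  have e0 : cm (b * Complex.I) x = b • (Complex.I • x) := by
    rw [cm_apply, smul_decomp]
    simp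
  have key : ∀ s : ℝ, 1 + s * a ≤ Real.sqrt (1 + s ^ 2) := by
    intro s
    have e1 : f (((1 : ℂ) + s * Complex.I) • x) = 1 + s * a := by
      rw [smul_decomp, map_add, map_smul, map_smul, h3, ← ha]
      simp
    have e2 : ‖((1 : ℂ) + s * Complex.I) • x‖ = Real.sqrt (1 + s ^ 2) := by
      rw [norm_smul, h1, mul_one]
      have := Complex.norm_add_mul_I 1 s
      simpa using this
    calc 1 + s * a ≤ ‖f (((1 : ℂ) + s * Complex.I) • x)‖ := by rw [e1]; exact le_abs_self _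
      _ ≤ ‖f‖ * ‖((1 : ℂ) + s * Complex.I) • x‖ := f.le_opNorm _
      _ = _ := by rw [h2, e2, one_mul]
  have h4 : 1 + a * a ≤ Real.sqrt (1 + a ^ 2) := key a
  have h5 : (1 + a * a) ^ 2 ≤ 1 + a ^ 2 := by
    calc (1 + a * a) ^ 2 ≤ Real.sqrt (1 + a ^ 2) ^ 2 := by
          have : 0 ≤ 1 + a * a := by nlinarith [mul_self_nonneg a]
          exact pow_le_pow_left₀ this h4 2
      _ = 1 + a ^ 2 := Real.sq_sqrt (by positivity)
  have h6 : a = 0 := by
    have : a ^ 2 ≤ 0 := by nlinarith [sq_nonneg a, sq_nonneg (a * a)]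
    exact pow_eq_zero_iff (two_ne_zero) |>.mp (le_antisymm this (sq_nonneg a))
  rw [e0, map_smul, ← ha, h6, smul_zero]

/-- A state of the space. -/
lemma state_mem {F : MPb2bd43.X} {t : G} (h1 : ‖F‖ = 1) (h : ‖(F : C(G, ℂ)) t‖ = 1) :
    (F, ev t ((F : C(G, ℂ)) t)) ∈ PiSet MPb2bd43.X :=
  ⟨h1, norm_ev h1 h, ev_self h⟩

lemma state1 : ∃ q : MPb2bd43.X × (MPb2bd43.X →L[ℝ] ℝ), q ∈ PiSet MPb2bd43.X :=
  ⟨_, state_mem (t := 0) norm_hX1 (by
    show ‖h 1 0‖ = 1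
    rw [h_zero, norm_one])⟩

/-- The second numerical index is at least one: `‖T + Z‖ ≤ v(T)`. -/
lemma quot_le (T : MPb2bd43.X →L[ℝ] MPb2bd43.X) : quotNorm T ≤ numRadius T := by
  obtain ⟨b, hb⟩ := key_bound T
  exact (quotNorm_le T (cm_skew b)).trans
    (hb _ fun F t h1 h2 => le_numRadius T (state_mem h1 h2))

lemma norm_cm (f : MPb2bd43.X) : ‖cm ((1 : ℝ) * Complex.I) f‖ = ‖f‖ := by
  have h1 : ‖(((1 : ℝ) : ℂ) * Complex.I)‖ = 1 := by simp
  rw [cm_apply, norm_smul, h1, one_mul]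

lemma numIndex_X : numIndex MPb2bd43.X = 0 := by
  have hJ : numRadius (cm ((1 : ℝ) * Complex.I)) = 0 := cm_skew 1
  have hn : ‖cm ((1 : ℝ) * Complex.I)‖ = 1 := by
    refine le_antisymm (ContinuousLinearMap.opNorm_le_bound _ zero_le_one fun f => ?_) ?_
    · rw [norm_cm, one_mul]
    · have := (cm ((1 : ℝ) * Complex.I)).le_opNorm (hX 1)
      rw [norm_cm, norm_hX1, mul_one] at this
      exact this
  refine le_antisymm (csInf_le ⟨0, ?_⟩ ⟨_, hn, hJ.symm⟩) (le_csInf ⟨_, _, hn, hJ.symm⟩ ?_)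
  · rintro r ⟨T, -, rfl⟩; exact numRadius_nonneg T
  · rintro r ⟨T, -, rfl⟩; exact numRadius_nonneg T

lemma numRadius_id : numRadius (ContinuousLinearMap.id ℝ MPb2bd43.X) = 1 := by
  obtain ⟨q0, hq0⟩ := state1
  refine le_antisymm (csSup_le ⟨_, q0, hq0, rfl⟩ ?_) ?_
  · rintro r ⟨q, hq, rfl⟩
    rw [ContinuousLinearMap.id_apply, hq.2.2, abs_one]
  · have := le_numRadius (ContinuousLinearMap.id ℝ MPb2bd43.X) hq0
    rw [ContinuousLinearMap.id_apply, hq0.2.2, abs_one] at this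
    exact this

lemma quotNorm_id : quotNorm (ContinuousLinearMap.id ℝ MPb2bd43.X) = 1 := by
  obtain ⟨q0, hq0⟩ := state1
  have hz : (0 : MPb2bd43.X →L[ℝ] MPb2bd43.X) ∈ skewHermitian MPb2bd43.X :=
    numRadius_eq_zero fun q _ => by rw [ContinuousLinearMap.zero_apply, map_zero]
  refine le_antisymm ?_ (le_csInf ⟨_, 0, hz, rfl⟩ ?_)
  · refine (quotNorm_le _ hz).trans ?_
    rw [add_zero]
    exact ContinuousLinearMap.norm_id_le
  · rintro r ⟨S, hS, rfl⟩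
    have e1 : q0.2 (S q0.1) = 0 := by
      have := le_numRadius S hq0
      rw [show numRadius S = 0 from hS] at this
      exact abs_nonpos_iff.mp this
    have e2 : q0.2 ((ContinuousLinearMap.id ℝ MPb2bd43.X + S) q0.1) = 1 := by
      rw [ContinuousLinearMap.add_apply, map_add, e1, ContinuousLinearMap.id_apply, hq0.2.2,
        add_zero]
    have e3 : |q0.2 ((ContinuousLinearMap.id ℝ MPb2bd43.X + S) q0.1)| ≤
        ‖q0.2‖ * (‖ContinuousLinearMap.id ℝ MPb2bd43.X + S‖ * ‖q0.1‖) := by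
      rw [← Real.norm_eq_abs]
      exact (q0.2.le_opNorm _).trans
        (mul_le_mul_of_nonneg_left (ContinuousLinearMap.le_opNorm _ _) (norm_nonneg _))
    rw [e2, abs_one, hq0.1, hq0.2.1, one_mul, mul_one] at e3
    exact e3

lemma secondNumIndex_X : secondNumIndex MPb2bd43.X = 1 := by
  refine le_antisymm (csInf_le ⟨0, ?_⟩ ⟨_, quotNorm_id, numRadius_id.symm⟩)
    (le_csInf ⟨_, _, quotNorm_id, numRadius_id.symm⟩ ?_)
  · rintro r ⟨T, -, rfl⟩; exact numRadius_nonneg T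
  · rintro r ⟨T, hT, rfl⟩
    rw [← hT]
    exact quot_le T

lemma not_bilin : ¬ ∃ B : MPb2bd43.X →ₗ[ℝ] MPb2bd43.X →ₗ[ℝ] ℝ, ∀ x, ‖x‖ ^ 2 = B x x := by
  rintro ⟨B, hB⟩
  obtain ⟨f, g, hfg⟩ := not_parallelogram
  rw [hB, hB, hB, hB] at hfg
  simp only [map_add, map_sub, LinearMap.add_apply, LinearMap.sub_apply] at hfg
  linarith

/-- There is a real Banach space `X` with `n(X) = 0` and `n'(X) = 1` whose norm is not induced by
any inner product, indeed not by any bilinear form. -/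
theorem result : ∃ (X : Type) (_ : NormedAddCommGroup X) (_ : NormedSpace ℝ X)
    (_ : CompleteSpace X), numIndex X = 0 ∧ secondNumIndex X = 1 ∧
      ¬ ∃ B : X →ₗ[ℝ] X →ₗ[ℝ] ℝ, ∀ x, ‖x‖ ^ 2 = B x x :=
  ⟨MPb2bd43.X, inferInstance, inferInstance, inferInstance, numIndex_X, secondNumIndex_X,
    not_bilin⟩

end Pool.Agent.Results.MP_b2bd43_an.NotHilbert
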